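import Mathlib
import Pool.Agent.H213Z.Quad3.Main

set_option autoImplicit false

open MeasureTheory

namespace Pool.Agent.Results.MP_9159b8_an.AThreeComponents

/-- Negative answer to Q2: a bounded domain whose boundary is the union of three pairwise disjoint
Jordan curves (regular of class `C¹`, of finite length, and each one a connected component of the
boundary) on which the area mean of `Re f` equals its arc length mean over the boundary for every
`f` holomorphic inside and continuous up to the boundary. Arc length is `μH[1]`. -/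
theorem result : ∃ Ω : Set ℂ, IsOpen Ω ∧ IsConnected Ω ∧ Bornology.IsBounded Ω ∧
    (∃ γ : Fin 3 → Circle → ℂ,
      (∀ i, Continuous (γ i)) ∧ (∀ i, Function.Injective (γ i)) ∧
      (∀ i, ContDiff ℝ 1 (fun θ : ℝ => γ i (Circle.exp θ))) ∧
      (∀ i θ, deriv (fun θ : ℝ => γ i (Circle.exp θ)) θ ≠ 0) ∧
      (∀ i j, i ≠ j → Disjoint (Set.range (γ i)) (Set.range (γ j))) ∧
      (∀ i, μH[1] (Set.range (γ i)) < ⊤) ∧
      frontier Ω = ⋃ i, Set.range (γ i) ∧
      (∀ i t, connectedComponentIn (frontier Ω) (γ i t) = Set.range (γ i))) ∧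
    0 < μH[1] (frontier Ω) ∧
    ∀ f : ℂ → ℂ, DifferentiableOn ℂ f Ω → ContinuousOn f (closure Ω) →
      (volume Ω).toReal⁻¹ * ∫ z in Ω, (f z).re =
        (μH[1] (frontier Ω)).toReal⁻¹ * ∫ z in frontier Ω, (f z).re ∂μH[1] :=
  Pool.Agent.H213Z.Quad3.main

end Pool.Agent.Results.MP_9159b8_an.AThreeComponents
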